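import Mathlib
import Pool.Agent.helper49.TS5

/-!
The group of local automorphisms of a finite-dimensional algebra over `ℝ` or `ℂ` is a closed
subgroup of `GL(A)`.

The proof uses the Tarski-Seidenberg theorem, proved from scratch in
`Pool/Agent/helper49/TS1.lean` to `TS4.lean`: the orbits of `Aut(A)` on `A` are semialgebraic,
hence contain a relatively open piece of their closure.
-/

set_option autoImplicit false

open Pool.Agent.helper49.TS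

namespace Pool.Agent.Results.MP_fbf57d_al.LocAutClosed

/-- `ψ` is an automorphism of the algebra `A` with product `μ`. -/
def IsAut {𝕜 A : Type} [RCLike 𝕜] [AddCommGroup A] [Module 𝕜 A] (μ : A →ₗ[𝕜] A →ₗ[𝕜] A)
    (ψ : A ≃ₗ[𝕜] A) : Prop :=
  ∀ a b : A, ψ (μ a b) = μ (ψ a) (ψ b)

/-- `φ` is a local automorphism of the algebra `A` with product `μ`. -/
def IsLocAut {𝕜 A : Type} [RCLike 𝕜] [AddCommGroup A] [Module 𝕜 A] (μ : A →ₗ[𝕜] A →ₗ[𝕜] A)
    (φ : A →ₗ[𝕜] A) : Prop :=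
  ∀ x : A, ∃ ψ : A ≃ₗ[𝕜] A, IsAut μ ψ ∧ φ x = ψ x

section algebra

variable {𝕜 A : Type} [RCLike 𝕜] [AddCommGroup A] [Module 𝕜 A] (μ : A →ₗ[𝕜] A →ₗ[𝕜] A)

lemma IsAut.symm {ψ : A ≃ₗ[𝕜] A} (h : IsAut μ ψ) : IsAut μ ψ.symm := by
  intro a b
  apply ψ.injective
  rw [LinearEquiv.apply_symm_apply, h, LinearEquiv.apply_symm_apply, LinearEquiv.apply_symm_apply]

lemma IsAut.trans {ψ ψ' : A ≃ₗ[𝕜] A} (h : IsAut μ ψ) (h' : IsAut μ ψ') : IsAut μ (ψ.trans ψ') := by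
  intro a b
  simp only [LinearEquiv.trans_apply]
  rw [h, h']

lemma isAut_refl : IsAut μ (LinearEquiv.refl 𝕜 A) := fun _ _ => rfl

/-- The orbit of `x` under the automorphism group. -/
def orb (x : A) : Set A := {y | ∃ ψ : A ≃ₗ[𝕜] A, IsAut μ ψ ∧ ψ x = y}

lemma orb_eq {x y z : A} (h1 : z ∈ orb μ x) (h2 : z ∈ orb μ y) : y ∈ orb μ x := by
  obtain ⟨ψ, hψ, h3⟩ := h1
  obtain ⟨ψ', hψ', h4⟩ := h2
  refine ⟨ψ.trans ψ'.symm, IsAut.trans μ hψ (IsAut.symm μ hψ'), ?_⟩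
  rw [LinearEquiv.trans_apply, h3, ← h4, LinearEquiv.symm_apply_apply]

end algebra

section real

variable {𝕜 A : Type} [RCLike 𝕜] [NormedAddCommGroup A] [NormedSpace 𝕜 A] [FiniteDimensional 𝕜 A]
  (μ : A →ₗ[𝕜] A →ₗ[𝕜] A)

lemma orb_SA [Module ℝ A] [IsScalarTower ℝ 𝕜 A] [FiniteDimensional ℝ A] (x : A) :
    SA (orb μ x) := by
  have hfd : FiniteDimensional ℝ (Module.End 𝕜 A) := FiniteDimensional.trans ℝ 𝕜 _
  let W := A × (Module.End 𝕜 A × Module.End 𝕜 A)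
  let pg : W →ₗ[ℝ] Module.End 𝕜 A := LinearMap.fst ℝ _ _ ∘ₗ LinearMap.snd ℝ _ _
  let ph : W →ₗ[ℝ] Module.End 𝕜 A := LinearMap.snd ℝ _ _ ∘ₗ LinearMap.snd ℝ _ _
  let b := Module.finBasis 𝕜 A
  -- evaluation maps
  let ev : A → (Module.End 𝕜 A →ₗ[ℝ] A) := fun a =>
    { toFun := fun g => g a
      map_add' := fun _ _ => rfl
      map_smul' := fun _ _ => rfl }
  let μR : A →ₗ[ℝ] A →ₗ[ℝ] A := LinearMap.mk₂ ℝ (fun a c => μ a c)
    (fun a a' c => by simp) (fun r a c => by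
      rw [← IsScalarTower.algebraMap_smul 𝕜 r a, map_smul, LinearMap.smul_apply,
        IsScalarTower.algebraMap_smul]) (fun a c c' => by simp) (fun r a c => by
      rw [← IsScalarTower.algebraMap_smul 𝕜 r c, map_smul, IsScalarTower.algebraMap_smul])
  have e1 : SA {w : W | LinearMap.mul ℝ (Module.End 𝕜 A) (pg w) (ph w) = 1} :=
    SA.eq' (PM.bilin _ pg ph) (PM.const _)
  have e2 : SA {w : W | LinearMap.mul ℝ (Module.End 𝕜 A) (ph w) (pg w) = 1} :=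
    SA.eq' (PM.bilin _ ph pg) (PM.const _)
  have e3 : SA {w : W | (ev x ∘ₗ pg) w = (LinearMap.fst ℝ _ _ : W →ₗ[ℝ] A) w} :=
    SA.eq' (PM.of_linear _) (PM.of_linear _)
  have e4 : ∀ ij : Fin (Module.finrank 𝕜 A) × Fin (Module.finrank 𝕜 A),
      SA {w : W | (ev (μ (b ij.1) (b ij.2)) ∘ₗ pg) w =
        μR ((ev (b ij.1) ∘ₗ pg) w) ((ev (b ij.2) ∘ₗ pg) w)} := by
    intro ij
    exact SA.eq' (PM.of_linear _) (PM.bilin μR (ev (b ij.1) ∘ₗ pg) (ev (b ij.2) ∘ₗ pg))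
  have e5 := ((e1.inter e2).inter e3).inter (SA.iInter e4)
  have e6 := e5.proj
  convert e6 using 1
  ext y
  constructor
  · rintro ⟨ψ, hψ, rfl⟩
    refine ⟨(ψ.toLinearMap, ψ.symm.toLinearMap), ⟨⟨?_, ?_⟩, ?_⟩, ?_⟩
    · refine LinearMap.ext fun a => ?_
      exact ψ.apply_symm_apply a
    · refine LinearMap.ext fun a => ?_
      exact ψ.symm_apply_apply a
    · rfl
    · rw [Set.mem_iInter]
      intro ij
      exact hψ _ _
  · rintro ⟨⟨g, h⟩, ⟨⟨h1, h2⟩, h3⟩, h4⟩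
    have h1' : g * h = 1 := h1
    have h2' : h * g = 1 := h2
    have h3' : g x = y := h3
    rw [Set.mem_iInter] at h4
    have h4' : ∀ i j, g (μ (b i) (b j)) = μ (g (b i)) (g (b j)) := fun i j => h4 (i, j)
    refine ⟨LinearEquiv.ofLinearMap g h h1' h2', ?_, h3'⟩
    have h5 : (μ.compr₂ g) = μ.compl₁₂ g g := by
      apply b.ext
      intro i
      apply b.ext
      intro j
      simp only [LinearMap.compr₂_apply, LinearMap.compl₁₂_apply]
      exact h4' i j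
    intro a c
    have := congrArg (fun f : A →ₗ[𝕜] A →ₗ[𝕜] A => f a c) h5
    exact this

lemma orb_exists_open (x : A) :
    ∃ U : Set A, IsOpen U ∧ (U ∩ closure (orb μ x)).Nonempty ∧ U ∩ closure (orb μ x) ⊆ orb μ x := by
  let _ : NormedSpace ℝ A := NormedSpace.restrictScalars ℝ 𝕜 A
  have : IsScalarTower ℝ 𝕜 A := IsScalarTower.of_algebraMap_smul (fun _ _ => rfl)
  have : FiniteDimensional ℝ A := FiniteDimensional.trans ℝ 𝕜 A
  exact (orb_SA μ x).exists_open ⟨x, LinearEquiv.refl 𝕜 A, isAut_refl μ, rfl⟩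

lemma orb_closure_sub {x y : A} (h : y ∈ closure (orb μ x)) : closure (orb μ y) ⊆ closure (orb μ x) := by
  apply closure_minimal _ isClosed_closure
  rintro z ⟨ψ, hψ, rfl⟩
  have hc : Continuous ψ := ψ.toLinearMap.continuous_of_finiteDimensional
  have h1 : ψ y ∈ closure (ψ '' orb μ x) :=
    image_closure_subset_closure_image hc ⟨y, h, rfl⟩
  refine closure_mono ?_ h1
  rintro _ ⟨_, ⟨ψ', hψ', rfl⟩, rfl⟩
  exact ⟨ψ'.trans ψ, IsAut.trans μ hψ' hψ, rfl⟩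

/-- Orbits that lie in each other's closure are equal. -/
lemma mem_orb_of_closure {x y : A} (h1 : y ∈ closure (orb μ x)) (h2 : x ∈ closure (orb μ y)) :
    y ∈ orb μ x := by
  have hcl : closure (orb μ x) = closure (orb μ y) :=
    subset_antisymm (orb_closure_sub μ h2) (orb_closure_sub μ h1)
  obtain ⟨U, hU, ⟨z, hzU, hzx⟩, hU2⟩ := orb_exists_open μ x
  rw [hcl] at hzx hU2
  obtain ⟨w, hwU, hwy⟩ := mem_closure_iff.mp hzx U hU hzU
  exact orb_eq μ (hU2 ⟨hwU, subset_closure hwy⟩) hwy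

end real

/-- Local automorphisms are closed under composition. -/
lemma IsLocAut.comp {𝕜 A : Type} [RCLike 𝕜] [AddCommGroup A] [Module 𝕜 A]
    {μ : A →ₗ[𝕜] A →ₗ[𝕜] A} {φ φ' : A →ₗ[𝕜] A} (h : IsLocAut μ φ) (h' : IsLocAut μ φ') :
    IsLocAut μ (φ ∘ₗ φ') := by
  intro x
  obtain ⟨ψ', hψ', h1⟩ := h' x
  obtain ⟨ψ, hψ, h2⟩ := h (ψ' x)
  refine ⟨ψ'.trans ψ, IsAut.trans μ hψ' hψ, ?_⟩
  rw [LinearMap.comp_apply, h1, h2, LinearEquiv.trans_apply]

/-- The group of local automorphisms of a finite-dimensional algebra over `ℝ` or `ℂ`, as a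
subgroup of `GL(A)`. -/
def LocAut {𝕜 A : Type} [RCLike 𝕜] [NormedAddCommGroup A] [NormedSpace 𝕜 A]
    (μ : A →ₗ[𝕜] A →ₗ[𝕜] A) : Subgroup (A →L[𝕜] A)ˣ where
  carrier := {u | IsLocAut μ ((u : A →L[𝕜] A) : A →ₗ[𝕜] A)}
  one_mem' := fun x => ⟨LinearEquiv.refl 𝕜 A, isAut_refl μ, rfl⟩
  mul_mem' := fun {u v} hu hv => hu.comp hv
  inv_mem' := by
    intro u hu x
    obtain ⟨ψ, hψ, h1⟩ := hu (((u⁻¹ : (A →L[𝕜] A)ˣ) : A →L[𝕜] A) x)
    refine ⟨ψ.symm, IsAut.symm μ hψ, ?_⟩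
    have h2 : ((u : A →L[𝕜] A) : A →ₗ[𝕜] A) (((u⁻¹ : (A →L[𝕜] A)ˣ) : A →L[𝕜] A) x) = x := by
      change ((u : A →L[𝕜] A) * ((u⁻¹ : (A →L[𝕜] A)ˣ) : A →L[𝕜] A)) x = x
      rw [Units.mul_inv]; rfl
    rw [h2] at h1
    change ((u⁻¹ : (A →L[𝕜] A)ˣ) : A →L[𝕜] A) x = ψ.symm x
    apply ψ.injective
    rw [ψ.apply_symm_apply]
    exact h1.symm

/-- Every local automorphism lies in the group `LocAut μ`, which is a closed subgroup of
`GL(A)`. -/
theorem result (𝕜 A : Type) [RCLike 𝕜] [NormedAddCommGroup A] [NormedSpace 𝕜 A]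
    [FiniteDimensional 𝕜 A] (μ : A →ₗ[𝕜] A →ₗ[𝕜] A) :
    (∀ φ : A →ₗ[𝕜] A, IsLocAut μ φ ↔
      ∃ u ∈ LocAut μ, ((u : A →L[𝕜] A) : A →ₗ[𝕜] A) = φ) ∧
    IsClosed (LocAut μ : Set (A →L[𝕜] A)ˣ) := by
  constructor
  · intro φ
    constructor
    · intro h
      have hinj : Function.Injective φ := by
        rw [← LinearMap.ker_eq_bot, LinearMap.ker_eq_bot']
        intro x hx
        obtain ⟨ψ, -, h1⟩ := h x
        rw [hx] at h1
        exact ψ.map_eq_zero_iff.mp h1.symm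
      let e : A ≃ₗ[𝕜] A := LinearEquiv.ofInjectiveEndo φ hinj
      let eL : A ≃L[𝕜] A := e.toContinuousLinearEquiv
      let u : (A →L[𝕜] A)ˣ :=
        { val := (eL : A →L[𝕜] A)
          inv := (eL.symm : A →L[𝕜] A)
          val_inv := by ext x; simp
          inv_val := by ext x; simp }
      refine ⟨u, ?_, ?_⟩
      · exact h
      · rfl
    · rintro ⟨u, hu, rfl⟩
      exact hu
  · rw [← closure_subset_iff_isClosed]
    intro u hu x
    have key : ∀ v : (A →L[𝕜] A)ˣ, v ∈ closure (LocAut μ : Set (A →L[𝕜] A)ˣ) → ∀ z : A,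
        (v : A →L[𝕜] A) z ∈ closure (orb μ z) := by
      intro v hv z
      have hc : Continuous (fun v : (A →L[𝕜] A)ˣ => (v : A →L[𝕜] A) z) :=
        (ContinuousLinearMap.apply 𝕜 A z).continuous.comp Units.continuous_val
      have h1 := image_closure_subset_closure_image hc ⟨v, hv, rfl⟩
      refine closure_mono ?_ h1
      rintro _ ⟨w, hw, rfl⟩
      obtain ⟨ψ, hψ, h2⟩ := hw z
      exact ⟨ψ, hψ, h2.symm⟩
    have h1 := key u hu x
    have hinv : u⁻¹ ∈ closure (LocAut μ : Set (A →L[𝕜] A)ˣ) := by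
      have h3 : u ∈ (LocAut μ).topologicalClosure := hu
      exact (LocAut μ).topologicalClosure.inv_mem h3
    have h2 := key u⁻¹ hinv ((u : A →L[𝕜] A) x)
    have h3 : ((u⁻¹ : (A →L[𝕜] A)ˣ) : A →L[𝕜] A) ((u : A →L[𝕜] A) x) = x := by
      change (((u⁻¹ : (A →L[𝕜] A)ˣ) : A →L[𝕜] A) * (u : A →L[𝕜] A)) x = x
      rw [Units.inv_mul]; rfl
    rw [h3] at h2
    obtain ⟨ψ, hψ, h4⟩ := mem_orb_of_closure μ h1 h2
    exact ⟨ψ, hψ, h4.symm⟩

end Pool.Agent.Results.MP_fbf57d_al.LocAutClosed
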